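import Mathlib
import Pool.Agent.Q267.TreeQ2
import Pool.Agent.Q267.TreeFamily

/-!
Path, star and Y-tree densities in large trees.

* Q1 is answered negatively: the point `(8/197, 63/197)` lies in `P` and not in `C`.
* Q2 is answered positively, with `K = 6`.
-/

namespace Pool.Agent.Results.MP_ed556a_co.BothQuestions

open SimpleGraph Filter Topology
open Pool.Agent.Q267.CopyAut Pool.Agent.Q267.TreeQ2 Pool.Agent.Q267.TreeFamily

/-- The profile of a graph: the numbers of subgraphs isomorphic to the path, the star and the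
`Y`-tree on five vertices, divided by the sum of the three numbers. -/
noncomputable def profile {V : Type} [Fintype V] (T : SimpleGraph V) : ℝ × ℝ × ℝ :=
  ((T.copyCount pathTree : ℝ) /
      (T.copyCount pathTree + T.copyCount starTree + T.copyCount yTree),
    (T.copyCount starTree : ℝ) /
      (T.copyCount pathTree + T.copyCount starTree + T.copyCount yTree),
    (T.copyCount yTree : ℝ) /
      (T.copyCount pathTree + T.copyCount starTree + T.copyCount yTree))

/-- The limits of profiles of finite trees whose number of vertices tends to infinity. -/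
def Delta : Set (ℝ × ℝ × ℝ) :=
  {p | ∃ (V : ℕ → Type) (_ : ∀ n, Fintype (V n)) (T : ∀ n, SimpleGraph (V n)),
    (∀ n, (T n).IsTree) ∧ Tendsto (fun n => Fintype.card (V n)) atTop atTop ∧
      Tendsto (fun n => profile (T n)) atTop (𝓝 p)}

/-- The set of pairs (limiting path density, limiting star density). -/
def Proj : Set (ℝ × ℝ) := {q | ∃ p ∈ Delta, q = (p.1, p.2.1)}

/-- The limit of the profiles of `d`-millipedes (first two coordinates). -/
noncomputable def m (d : ℕ) : ℝ × ℝ :=
  (((d : ℝ) + 1) ^ 2 / (((d + 2).choose 4 : ℝ) + ((d : ℝ) + 1) ^ 3),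
    ((d + 2).choose 4 : ℝ) / (((d + 2).choose 4 : ℝ) + ((d : ℝ) + 1) ^ 3))

/-- The convex hull of `(0, 1)` and the points `m d`. -/
noncomputable def C : Set (ℝ × ℝ) := convexHull ℝ ({((0 : ℝ), (1 : ℝ))} ∪ Set.range m)

theorem choose_real (d : ℕ) : 24 * ((d + 2).choose 4 : ℝ) =
    ((d : ℝ) + 2) * (d + 1) * d * (d - 1) := by
  have h := Pool.Agent.Q267.TreeIneq.choose_four (d + 1)
  have h2 : (((24 * (((d + 1) + 1).choose 4 : ℤ)) : ℤ) : ℝ) =
      (((((d + 1 : ℕ) : ℤ) + 1) * ((d + 1 : ℕ) : ℤ) * (((d + 1 : ℕ) : ℤ) - 1) *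
        (((d + 1 : ℕ) : ℤ) - 2) : ℤ) : ℝ) := by rw [h]
  push_cast at h2
  rw [show ((d + 2).choose 4 : ℝ) = (((d + 1 + 1).choose 4 : ℕ) : ℝ) from rfl, h2]
  ring

theorem C_sub : C ⊆ {q : ℝ × ℝ | 1 ≤ 8 * q.1 + 2 * q.2} := by
  apply convexHull_min
  · rintro q (hq | ⟨d, rfl⟩)
    · rw [Set.mem_singleton_iff] at hq
      subst hq
      norm_num
    · show 1 ≤ 8 * (m d).1 + 2 * (m d).2
      unfold m
      have h1 := choose_real d
      have h2 : (0 : ℝ) ≤ ((d + 2).choose 4 : ℝ) := Nat.cast_nonneg _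
      have hd : (0 : ℝ) ≤ d := Nat.cast_nonneg _
      have h3 : (0 : ℝ) < ((d + 2).choose 4 : ℝ) + ((d : ℝ) + 1) ^ 3 := by positivity
      rw [← mul_div_assoc, ← mul_div_assoc, ← add_div, le_div_iff₀ h3]
      have h4 : 0 ≤ ((d : ℝ) + 1) * (((d : ℝ) + 1) * ((d : ℝ) + 1 - 13) ^ 2 + 22 * ((d : ℝ) + 1) + 2) := by
        positivity
      nlinarith
  · intro x hx y hy a b ha hb hab
    simp only [Set.mem_ofPred_eq] at hx hy ⊢
    simp only [Prod.fst_add, Prod.snd_add, Prod.smul_fst, Prod.smul_snd, smul_eq_mul]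
    nlinarith

theorem point_not_mem : ((8 / 197 : ℝ), (63 / 197 : ℝ)) ∉ C := by
  intro h
  have := C_sub h
  simp only [Set.mem_ofPred_eq] at this
  norm_num at this

theorem point_mem : ((8 / 197 : ℝ), (63 / 197 : ℝ)) ∈ Proj := by
  refine ⟨(8 / 197, 63 / 197, 126 / 197), ?_, rfl⟩
  refine ⟨fun n => Fin (n + 1) × U, fun n => inferInstance, fun n => T (n + 1),
    fun n => T_tree n, ?_, ?_⟩
  · have h : ∀ n : ℕ, n ≤ Fintype.card (Fin (n + 1) × U) := by
      intro n
      simp only [Fintype.card_prod, Fintype.card_sum, Fintype.card_fin, Fintype.card_bool]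
      omega
    exact tendsto_atTop_mono h tendsto_id
  · have e1 : ∀ n : ℕ, ((T (n + 1)).copyCount pathTree : ℝ) = 32 * n := fun n => by
      exact_mod_cast path_total n
    have e2 : ∀ n : ℕ, ((T (n + 1)).copyCount starTree : ℝ) = 252 * n + 252 := fun n => by
      exact_mod_cast star_total n
    have e3 : ∀ n : ℕ, ((T (n + 1)).copyCount yTree : ℝ) = 504 * n + 448 := fun n => by
      exact_mod_cast y_total n
    have hp : (fun n : ℕ => profile (T (n + 1))) = fun n : ℕ =>
        (((0 : ℝ) + 32 * (n : ℝ)) / (700 + 788 * (n : ℝ)),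
          ((252 : ℝ) + 252 * (n : ℝ)) / (700 + 788 * (n : ℝ)),
          ((448 : ℝ) + 504 * (n : ℝ)) / (700 + 788 * (n : ℝ))) := by
      funext n
      unfold profile
      rw [e1, e2, e3]
      have hz : (32 * (n : ℝ) + (252 * n + 252) + (504 * n + 448)) = 700 + 788 * n := by ring
      rw [hz]
      refine Prod.ext ?_ (Prod.ext ?_ ?_)
      · simp
      · simp only
        ring
      · simp only
        ring
    rw [hp]
    have t1 := tendsto_add_mul_div_add_mul_atTop_nhds (0 : ℝ) 700 32 (d := 788) (by norm_num)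
    have t2 := tendsto_add_mul_div_add_mul_atTop_nhds (252 : ℝ) 700 252 (d := 788) (by norm_num)
    have t3 := tendsto_add_mul_div_add_mul_atTop_nhds (448 : ℝ) 700 504 (d := 788) (by norm_num)
    have t := t1.prodMk_nhds (t2.prodMk_nhds t3)
    have hval : ((32 / 788 : ℝ), (252 / 788 : ℝ), (504 / 788 : ℝ)) =
        ((8 / 197 : ℝ), (63 / 197 : ℝ), (126 / 197 : ℝ)) := by norm_num
    rw [hval] at t
    exact t

theorem q2 (V : Type) [Fintype V] (T : SimpleGraph V) (hT : T.IsTree) :
    T.copyCount yTree ≤ 9 * T.copyCount starTree + T.copyCount pathTree + 6 := by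
  classical
  rcases subsingleton_or_nontrivial V with hs | hn
  · have h := Pool.Agent.Q267.TreeCounts.y_count T hT.isAcyclic
    have h2 : ∀ v : V, T.neighborFinset v = ∅ := by
      intro v
      ext w
      simp only [mem_neighborFinset, Finset.notMem_empty, iff_false]
      intro h3
      exact h3.ne (Subsingleton.elim _ _)
    simp only [h2, Finset.sum_empty, Finset.sum_const_zero] at h
    have h3 : T.copyCount yTree = 0 := by
      have : (T.copyCount yTree : ℤ) = 0 := by linarith
      exact_mod_cast this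
    omega
  · obtain ⟨r, hr⟩ := hT.exists_vert_degree_one_of_nontrivial
    have := main_of_root T r hT hr
    exact_mod_cast this

/-- Q1: `Proj ≠ C`, since `(8/197, 63/197)` is in `Proj` and not in `C`.
Q2: every finite tree satisfies `Y ≤ 9 S + P + 6`. -/
theorem result :
    (Proj ≠ C ∧ ((8 / 197 : ℝ), (63 / 197 : ℝ)) ∈ Proj ∧ ((8 / 197 : ℝ), (63 / 197 : ℝ)) ∉ C) ∧
    (∀ (V : Type) [Fintype V] (T : SimpleGraph V), T.IsTree →
      T.copyCount yTree ≤ 9 * T.copyCount starTree + T.copyCount pathTree + 6) := by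
  refine ⟨⟨?_, point_mem, point_not_mem⟩, fun V _ T hT => q2 V T hT⟩
  intro h
  exact point_not_mem (h ▸ point_mem)

end Pool.Agent.Results.MP_ed556a_co.BothQuestions
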